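import Pool.Agent.Lib.MP_e3346b_ag_h58.Trans

/-!
# MP_e3346b_ag, length bounds: colon ideals (helper58)
-/

set_option autoImplicit false

universe u

namespace Pool.Agent.MP_e3346b_h58

open Pool.Agent.MP_e3346b IsLocalRing

variable {S : Type u} [CommRing S] {E : Type u} [AddCommGroup E] [Module S E]

/-- `length (E / J E) + length (S / (0 : J)) ≤ length S` -/
theorem dual_len [IsArtinianRing S] [Module.Finite S E]
    (hfaith : ∀ c : S, (∀ e : E, c • e = 0) → c = 0)
    (hend : ∀ φ : E →ₗ[S] E, ∃ c : S, ∀ e, φ e = c • e)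
    (hlen : ∀ (X : Type u) [AddCommGroup X] [Module S X], Module.Finite S X →
      Module.length S (X →ₗ[S] E) = Module.length S X)
    (J Q : Ideal S) (hQ : ∀ c, c ∈ Q ↔ ∀ x ∈ J, c * x = 0) :
    Module.length S (E ⧸ (J • ⊤ : Submodule S E)) + Module.length S (S ⧸ Q) ≤
      Module.length S S := by
  let Φ : Q →ₗ[S] ((E ⧸ (J • ⊤ : Submodule S E)) →ₗ[S] E) :=
    { toFun := fun x => Submodule.liftQ _ ((x : S) • LinearMap.id) (by
        refine Submodule.smul_le.mpr ?_
        intro c hc e _
        rw [LinearMap.mem_ker, LinearMap.smul_apply, LinearMap.id_apply, smul_smul,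
          (hQ x).mp x.2 c hc, zero_smul])
      map_add' := fun x y => by
        ext e
        simp [add_smul]
      map_smul' := fun c x => by
        ext e
        simp [mul_smul] }
  have hΦ : Function.Surjective Φ := by
    intro φ
    obtain ⟨c, hc⟩ := hend (φ.comp (Submodule.mkQ _))
    have hcQ : c ∈ Q := by
      rw [hQ]
      intro x hx
      refine hfaith _ fun e => ?_
      have h1 := hc (x • e)
      rw [LinearMap.comp_apply, Submodule.mkQ_apply] at h1
      have h2 : (Submodule.Quotient.mk (x • e) : E ⧸ (J • ⊤ : Submodule S E)) = 0 := by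
        rw [Submodule.Quotient.mk_eq_zero]
        exact Submodule.smul_mem_smul hx trivial
      rw [h2, map_zero, smul_smul] at h1
      exact h1.symm
    refine ⟨⟨c, hcQ⟩, ?_⟩
    ext e
    have h1 := hc e
    simp only [Φ, LinearMap.coe_mk, AddHom.coe_mk]
    exact h1.symm
  have h1 := Module.length_le_of_surjective Φ hΦ
  rw [hlen _ inferInstance] at h1
  have h2 := len_add (Q : Submodule S S)
  rw [h2]
  exact add_le_add h1 le_rfl

end Pool.Agent.MP_e3346b_h58
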