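import Pool.Agent.Lib.MP_e3346b_ag_h58.Steps

/-!
# MP_e3346b_ag, length bounds: all inequalities (helper58)
-/

set_option autoImplicit false

universe u

namespace Pool.Agent.MP_e3346b_h58

open Pool.Agent.MP_e3346b IsLocalRing

section

variable {S : Type u} [CommRing S] {M : Type u} [AddCommGroup M] [Module S M]

lemma len_add (N : Submodule S M) :
    Module.length S M = Module.length S N + Module.length S (M ⧸ N) :=
  Module.length_eq_add_of_exact N.subtype N.mkQ (Submodule.injective_subtype _)
    (Submodule.mkQ_surjective _) (LinearMap.exact_subtype_mkQ N)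

end

variable {S : Type u} [CommRing S] [IsLocalRing S] [IsArtinianRing S] {E : Type u} [AddCommGroup E]
  [Module S E] [Nontrivial E] {r : ℕ}

theorem exists_ineq (F : (Fin r → S) →ₗ[S] E) (hF : Function.Surjective F)
    (G : (Fin r → S) →ₗ[S] (Fin r → S)) (hG : LinearMap.range G = LinearMap.ker F)
    (hmem : ∀ v ∈ LinearMap.ker F, ∀ i, v i ∈ maximalIdeal S)
    (hfaith : ∀ c : S, (∀ e : E, c • e = 0) → c = 0)
    (hlen : ∀ (X : Type u) [AddCommGroup X] [Module S X], Module.Finite S X →
      Module.length S (X →ₗ[S] E) = Module.length S X)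
    (L n : ℕ) (hL : Module.length S S = L)
    (hn : Module.length S (S ⧸ (maximalIdeal S) ^ 2) = (n + 1 : ℕ)) :
    ∃ (s : ℕ) (a σ : ℕ → ℕ), Ineq r s L a σ ∧ a 2 = n + 1 ∧
      (∀ lam, (maximalIdeal S) ^ lam = ⊥ → s + 1 ≤ lam) := by
  have hfin : Module.Finite S E := Module.Finite.of_surjective F hF
  have hEL : Module.length S E = L := by
    rw [← hL, ← hlen S inferInstance]
    exact (LinearMap.ringLmapEquivSelf S S E).length_eq.symm
  -- nilpotency
  have hnil : ∃ k, (maximalIdeal S) ^ k = ⊥ := by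
    obtain ⟨k, hk⟩ := (isArtinianRing_iff_isNilpotent_maximalIdeal S).mp inferInstance
    exact ⟨k, hk⟩
  classical
  obtain ⟨k, hk, hkmin⟩ : ∃ k, (maximalIdeal S) ^ k = ⊥ ∧
      ∀ j, j < k → (maximalIdeal S) ^ j ≠ ⊥ :=
    ⟨Nat.find hnil, Nat.find_spec hnil, fun j hj => Nat.find_min hnil hj⟩
  have hk0 : k ≠ 0 := by
    rintro rfl
    rw [pow_zero, Ideal.one_eq_top] at hk
    exact top_ne_bot hk
  obtain ⟨s, rfl⟩ : ∃ s, k = s + 1 := Nat.exists_eq_succ_of_ne_zero hk0
  have hsne : (maximalIdeal S) ^ s ≠ ⊥ := hkmin s (Nat.lt_succ_self s)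
  -- the lengths
  let a : ℕ → ℕ := fun j => (Module.length S (S ⧸ (maximalIdeal S) ^ j)).toNat
  let σ : ℕ → ℕ := fun j =>
    (Module.length S (E ⧸ ((maximalIdeal S) ^ j • ⊤ : Submodule S E))).toNat
  have ha : ∀ j, Module.length S (S ⧸ (maximalIdeal S) ^ j) = a j := fun j =>
    (ENat.natCast_toNat Module.length_ne_top).symm
  have hσ : ∀ j, Module.length S (E ⧸ ((maximalIdeal S) ^ j • ⊤ : Submodule S E)) = σ j :=
    fun j => (ENat.natCast_toNat Module.length_ne_top).symm
  have ha1 : a 1 = 1 := by
    have h1 : Module.length S (S ⧸ (maximalIdeal S) ^ 1) = 1 := by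
      rw [pow_one, Module.length_eq_one_iff]
      exact isSimpleModule_iff_isCoatom.mpr (maximalIdeal.isMaximal S).out
    rw [ha] at h1
    exact_mod_cast h1
  have hσ1 : σ 1 ≤ r := by
    have h1 : Module.length S (E ⧸ ((maximalIdeal S) ^ 1 • ⊤ : Submodule S E)) ≤
        Module.length S (Fin r → S ⧸ (maximalIdeal S) ^ 1) :=
      Module.length_le_of_surjective ((baseF ((maximalIdeal S) ^ 1) F).restrictScalars S)
        (baseF_surjective ((maximalIdeal S) ^ 1) hF)
    rw [hσ, sum_length, ha, ha1] at h1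
    have h2 : (σ 1 : ℕ∞) ≤ (r : ℕ) := by simpa using h1
    exact_mod_cast h2
  have hNadd : ∀ j, Module.length S ((maximalIdeal S) ^ j • ⊤ : Submodule S E) + σ j = L := by
    intro j
    rw [← hσ, ← hEL]
    exact (len_add _).symm
  have hGmem : ∀ j i, G (Pi.single j 1) i ∈ maximalIdeal S := by
    intro j i
    refine hmem _ ?_ i
    rw [← hG]
    exact ⟨_, rfl⟩
  refine ⟨s, a, σ, ⟨?_, ha1, ?_, ?_, ?_, hσ1, ?_, ?_⟩, ?_, ?_⟩
  · -- r ≥ 1
    rcases Nat.eq_zero_or_pos r with h0 | h0
    · subst h0
      obtain ⟨e, he⟩ := exists_ne (0 : E)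
      obtain ⟨v, rfl⟩ := hF e
      exact absurd (by rw [Subsingleton.elim v 0, map_zero]) he
    · exact h0
  · -- a (s + 1) = L
    have h1 := ha (s + 1)
    rw [hk] at h1
    have h2 : Module.length S (S ⧸ (⊥ : Ideal S)) = Module.length S S :=
      (Submodule.quotEquivOfEqBot (⊥ : Submodule S S) rfl).length_eq
    rw [h2, hL] at h1
    exact_mod_cast h1.symm
  · -- A
    intro j
    have h1 := step_A F hF G hG ((maximalIdeal S) ^ (j + 1)) ((maximalIdeal S) ^ j) (by
      intro v hv i
      rw [eq_sum_single v, map_sum, Finset.sum_apply]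
      refine Ideal.sum_mem _ fun l _ => ?_
      rw [map_smul, Pi.smul_apply, smul_eq_mul, pow_succ]
      exact Ideal.mul_mem_mul (hv l) (hGmem l i))
    rw [ha, ha, hσ] at h1
    exact_mod_cast h1
  · -- B
    intro i hi
    have hle : ((maximalIdeal S) ^ i • ⊤ : Submodule S E) ≤ maximalIdeal S • ⊤ := by
      refine Submodule.smul_mono_left ?_
      exact Ideal.pow_le_self (by omega)
    have h1 := step_B F hF G hG hmem (hlen E inferInstance) ((maximalIdeal S) ^ i • ⊤) hle
    have h2 : (maximalIdeal S • ((maximalIdeal S) ^ i • ⊤) : Submodule S E) =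
        (maximalIdeal S) ^ (i + 1) • ⊤ := by
      rw [← mul_smul, ← pow_succ']
    rw [h2, hEL] at h1
    have hfN : ∀ j, ∃ x : ℕ,
        Module.length S ((maximalIdeal S) ^ j • ⊤ : Submodule S E) = x := fun j =>
      ⟨_, (ENat.natCast_toNat Module.length_ne_top).symm⟩
    obtain ⟨x, hx⟩ := hfN i
    obtain ⟨y, hy⟩ := hfN (i + 1)
    have h3 := hNadd i
    have h4 := hNadd (i + 1)
    rw [hx] at h1 h3
    rw [hy] at h1 h4
    have h1' : r * x + 1 ≤ r * y + L := by exact_mod_cast h1
    have h3' : x + σ i = L := by exact_mod_cast h3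
    have h4' : y + σ (i + 1) = L := by exact_mod_cast h4
    have h5 : r * x + r * σ i = r * L := by rw [← mul_add, h3']
    have h6 : r * y + r * σ (i + 1) = r * L := by rw [← mul_add, h4']
    omega
  · -- C
    have h1 := len_add ((maximalIdeal S) ^ s : Submodule S S)
    rw [hL] at h1
    let Φ : ((maximalIdeal S) ^ s : Submodule S S) →ₗ[S]
        ((E ⧸ (maximalIdeal S • ⊤ : Submodule S E)) →ₗ[S] E) :=
      { toFun := fun x => Submodule.liftQ _ ((x : S) • LinearMap.id) (by
          refine Submodule.smul_le.mpr ?_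
          intro c hc e _
          rw [LinearMap.mem_ker, LinearMap.smul_apply, LinearMap.id_apply, smul_smul]
          have h2 : (x : S) * c ∈ (maximalIdeal S) ^ (s + 1) := by
            rw [pow_succ]
            exact Ideal.mul_mem_mul x.2 hc
          rw [hk, Submodule.mem_bot] at h2
          rw [h2, zero_smul])
        map_add' := fun x y => by
          ext e
          simp [add_smul]
        map_smul' := fun c x => by
          ext e
          simp [mul_smul] }
    have hΦ : Function.Injective Φ := by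
      rw [injective_iff_map_eq_zero]
      intro x hx
      apply Subtype.ext
      refine hfaith _ fun e => ?_
      have h2 := LinearMap.congr_fun hx (Submodule.Quotient.mk e)
      simpa [Φ] using h2
    have h2 := Module.length_le_of_injective Φ hΦ
    rw [hlen (E ⧸ (maximalIdeal S • ⊤ : Submodule S E)) inferInstance] at h2
    have h3 := hσ 1
    rw [pow_one] at h3
    rw [h3] at h2
    have h4 : (L : ℕ∞) ≤ (σ 1 : ℕ∞) + a s := by
      rw [h1, ← ha s]
      exact add_le_add h2 le_rfl
    have h5 : L ≤ σ 1 + a s := by exact_mod_cast h4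
    omega
  · -- D
    intro j hj
    have hne : ((maximalIdeal S) ^ j • ⊤ : Submodule S E) ≠ ⊥ := by
      intro h0
      apply hsne
      rw [eq_bot_iff]
      intro x hx
      rw [Submodule.mem_bot]
      refine hfaith x fun e => ?_
      have h1 : x • e ∈ ((maximalIdeal S) ^ j • ⊤ : Submodule S E) :=
        Submodule.smul_mem_smul (Ideal.pow_le_pow_right hj hx) trivial
      rw [h0, Submodule.mem_bot] at h1
      exact h1
    have h1 := Submodule.length_quotient_lt _ hne
    rw [hσ, hEL] at h1
    have h2 : σ j < L := by exact_mod_cast h1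
    omega
  · have h1 := ha 2
    rw [hn] at h1
    exact_mod_cast h1.symm
  · intro lam hlam
    by_contra hcon
    exact hkmin lam (by omega) hlam

end Pool.Agent.MP_e3346b_h58
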