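import Mathlib

/-!
# MP_e3346b_ag, length bounds: the arithmetic (helper58)

`a j` is the length of `R / m ^ j`, `σ j` the length of `E / m ^ j E`, `L` the length of `R` and of
`E`, `r` the type, `s` the largest number with `m ^ s ≠ 0`.
-/

set_option autoImplicit false

namespace Pool.Agent.MP_e3346b_h58

/-- the inequalities between the lengths -/
structure Ineq (r s L : ℕ) (a σ : ℕ → ℕ) : Prop where
  r0 : 1 ≤ r
  a1 : a 1 = 1
  aL : a (s + 1) = L
  A : ∀ j, r * a (j + 1) ≤ r * a j + σ (j + 1)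
  B : ∀ i, 1 ≤ i → r * σ (i + 1) + 1 ≤ r * σ i + L
  σ1 : σ 1 ≤ r
  C : L ≤ a s + r
  D : ∀ j, j ≤ s → σ j + 1 ≤ L

variable {r s L : ℕ} {a σ : ℕ → ℕ}

lemma Ineq.sig (h : Ineq r s L a σ) (t : ℕ) :
    (r : ℤ) * σ (t + 1) ≤ (r : ℤ) ^ 2 + t * ((L : ℤ) - 1) := by
  induction t with
  | zero =>
    have h1 : (σ (0 + 1) : ℤ) ≤ r := by exact_mod_cast h.σ1
    have h2 : (0 : ℤ) ≤ r := by positivity
    push_cast
    nlinarith
  | succ t ih =>
    have h1 := h.B (t + 1) (by omega)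
    have h2 : (r : ℤ) * σ (t + 1 + 1) + 1 ≤ r * σ (t + 1) + L := by exact_mod_cast h1
    push_cast
    linarith

/-- `r ^ 2 (n - 1) + 1 ≤ L` -/
lemma Ineq.embdim (h : Ineq r s L a σ) {n : ℕ} (hn : a 2 = n + 1) :
    r ^ 2 * n + 1 ≤ r ^ 2 + L := by
  have h1 := h.A 1
  rw [show 1 + 1 = 2 from rfl, hn, h.a1] at h1
  have h2 := h.B 1 le_rfl
  rw [show 1 + 1 = 2 from rfl] at h2
  have h3 := h.σ1
  have h4 : r * n ≤ σ 2 := by
    have : r * (n + 1) = r * n + r * 1 := by ring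
    omega
  have h5 : r * (r * n) ≤ r * σ 2 := Nat.mul_le_mul_left r h4
  have h6 : r * σ 1 ≤ r * r := Nat.mul_le_mul_left r h3
  have h7 : r ^ 2 * n = r * (r * n) := by ring
  have h8 : r ^ 2 = r * r := by ring
  rw [h7, h8]
  omega

lemma Ineq.low (h : Ineq r s L a σ) (t : ℕ) :
    2 * (r : ℤ) ^ 2 * (a (t + 1) - 1) ≤ 2 * (r : ℤ) ^ 2 * t + ((L : ℤ) - 1) * ((t + 1) * t) := by
  induction t with
  | zero =>
    rw [show 0 + 1 = 1 from rfl, h.a1]
    simp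
  | succ t ih =>
    have h1 : (r : ℤ) * a (t + 1 + 1) ≤ r * a (t + 1) + σ (t + 1 + 1) := by
      exact_mod_cast h.A (t + 1)
    have h2 := h.sig (t + 1)
    have h3 : (0 : ℤ) ≤ r := by positivity
    have h4 : 2 * (r : ℤ) * (r * a (t + 1 + 1)) ≤ 2 * r * (r * a (t + 1) + σ (t + 1 + 1)) :=
      mul_le_mul_of_nonneg_left h1 (by positivity)
    push_cast at h2 ⊢
    nlinarith

lemma Ineq.high (h : Ineq r s L a σ) (t : ℕ) (ht : r + t ≤ s) :
    2 * (r : ℤ) ^ 2 * (a (r + t) - 1) ≤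
      2 * (r : ℤ) ^ 2 * (r - 1) + ((L : ℤ) - 1) * (r * (r - 1)) + 2 * r * ((L : ℤ) - 1) * t := by
  induction t with
  | zero =>
    have h1 := h.low (r - 1)
    have h2 : r - 1 + 1 = r := by have := h.r0; omega
    rw [h2] at h1
    have h3 : ((r - 1 : ℕ) : ℤ) = (r : ℤ) - 1 := by
      have := h.r0
      push_cast [this]
      ring
    rw [h3] at h1
    rw [add_zero]
    push_cast
    nlinarith
  | succ t ih =>
    have ih' := ih (by omega)
    have h1 : (r : ℤ) * a (r + t + 1) ≤ r * a (r + t) + σ (r + t + 1) := by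
      exact_mod_cast h.A (r + t)
    have h2 : (σ (r + t + 1) : ℤ) + 1 ≤ L := by exact_mod_cast h.D (r + t + 1) (by omega)
    have h4 : 2 * (r : ℤ) * (r * a (r + t + 1)) ≤ 2 * r * (r * a (r + t) + σ (r + t + 1)) :=
      mul_le_mul_of_nonneg_left h1 (by positivity)
    have h5 : 2 * (r : ℤ) * (σ (r + t + 1)) ≤ 2 * r * ((L : ℤ) - 1) :=
      mul_le_mul_of_nonneg_left (by linarith) (by positivity)
    rw [show r + (t + 1) = r + t + 1 from rfl]
    push_cast at ih' ⊢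
    nlinarith

/-- the bound of the length in terms of the Loewy length -/
theorem Ineq.loewy (h : Ineq r s L a σ) :
    ((L : ℤ) - 1) * (3 * r + 1 - 2 * s) ≤ 2 * r * (2 * r - 1) := by
  have hr : (1 : ℤ) ≤ r := by exact_mod_cast h.r0
  rcases Nat.eq_zero_or_pos s with hs | hs
  · subst hs
    have h1 := h.aL
    rw [show 0 + 1 = 1 from rfl, h.a1] at h1
    rw [← h1]
    push_cast
    nlinarith
  have hL1 : (1 : ℤ) ≤ L := by
    have h0 := h.D 0 (by omega)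
    have : 1 ≤ L := by omega
    exact_mod_cast this
  have hC : (L : ℤ) ≤ a s + r := by exact_mod_cast h.C
  have hC2 : 2 * (r : ℤ) ^ 2 * (L - 1) ≤ 2 * (r : ℤ) ^ 2 * (a s - 1) + 2 * (r : ℤ) ^ 3 := by
    have := mul_le_mul_of_nonneg_left hC (show (0 : ℤ) ≤ 2 * (r : ℤ) ^ 2 by positivity)
    nlinarith
  rcases le_or_gt r s with hrs | hrs
  · obtain ⟨t, rfl⟩ : ∃ t, s = r + t := ⟨s - r, by omega⟩
    have h1 := h.high t le_rfl
    have h2 : (r : ℤ) * (((L : ℤ) - 1) * (3 * r + 1 - 2 * (r + t))) ≤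
        r * (2 * r * (2 * r - 1)) := by nlinarith
    have h3 := le_of_mul_le_mul_left h2 (by linarith)
    push_cast
    exact h3
  · have h1 := h.low (s - 1)
    have h2 : s - 1 + 1 = s := by omega
    rw [h2] at h1
    have h3 : ((s - 1 : ℕ) : ℤ) = (s : ℤ) - 1 := by
      push_cast [hs]
      ring
    rw [h3] at h1
    have h4 : ((s : ℤ) - 1 + 1) * ((s : ℤ) - 1) = s * (s - 1) := by ring
    rw [h4] at h1
    obtain ⟨u, hu⟩ : ∃ u : ℤ, u = r - s := ⟨_, rfl⟩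
    have hu1 : 1 ≤ u := by
      have : (s : ℤ) + 1 ≤ r := by exact_mod_cast hrs
      linarith
    have hs1 : (1 : ℤ) ≤ s := by exact_mod_cast hs
    have hsr : (s : ℤ) = r - u := by linarith
    -- `(L - 1) D ≤ 2 r ^ 2 (r + s - 1)`
    have h5 : ((L : ℤ) - 1) * (2 * (r : ℤ) ^ 2 - s * (s - 1)) ≤
        2 * (r : ℤ) ^ 2 * (r + s - 1) := by nlinarith
    have hD : 0 < 2 * (r : ℤ) ^ 2 - s * (s - 1) := by nlinarith
    have h6 : (r : ℤ) * (r + s - 1) * (3 * r + 1 - 2 * s) ≤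
        (2 * r - 1) * (2 * (r : ℤ) ^ 2 - s * (s - 1)) := by
      rw [hsr]
      have h7 : (2 * (r : ℤ) - 1) * (2 * (r : ℤ) ^ 2 - (r - u) * (r - u - 1)) -
          r * (r + (r - u) - 1) * (3 * r + 1 - 2 * (r - u)) =
          u * (r * (r - 1) + u + 1) := by ring
      have h8 : 0 ≤ u * ((r : ℤ) * (r - 1) + u + 1) := by
        have : 0 ≤ (r : ℤ) * (r - 1) := mul_nonneg (by linarith) (by linarith)
        exact mul_nonneg (by linarith) (by linarith)
      linarith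
    rcases le_or_gt (3 * (r : ℤ) + 1 - 2 * s) 0 with h9 | h9
    · have h10 : ((L : ℤ) - 1) * (3 * r + 1 - 2 * s) ≤ 0 :=
        mul_nonpos_of_nonneg_of_nonpos (by linarith) h9
      have h11 : 0 ≤ 2 * (r : ℤ) * (2 * r - 1) := mul_nonneg (by linarith) (by linarith)
      linarith
    · have h10 := mul_le_mul_of_nonneg_right h5 h9.le
      have h11 : 2 * (r : ℤ) ^ 2 * (r + s - 1) * (3 * r + 1 - 2 * s) ≤
          2 * r * ((2 * r - 1) * (2 * (r : ℤ) ^ 2 - s * (s - 1))) := by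
        have := mul_le_mul_of_nonneg_left h6 (show (0 : ℤ) ≤ 2 * r by linarith)
        nlinarith
      have h12 : (2 * (r : ℤ) ^ 2 - s * (s - 1)) * (((L : ℤ) - 1) * (3 * r + 1 - 2 * s)) ≤
          (2 * (r : ℤ) ^ 2 - s * (s - 1)) * (2 * r * (2 * r - 1)) := by nlinarith
      exact le_of_mul_le_mul_left h12 hD

/-- the three contradictions -/
theorem Ineq.false (h : Ineq r s L a σ) {n lam : ℕ} (hn : a 2 = n + 1) (hlam : s + 1 ≤ lam)
    (hc : L ≤ r ^ 2 * (n - 1) ∨ (3 ≤ n ∧ 2 * lam ≤ 3 * r + 1) ∨ (5 ≤ n ∧ 2 * lam ≤ 3 * r + 2)) :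
    False := by
  have h1 := h.embdim hn
  have h2 := h.loewy
  have hr : (1 : ℤ) ≤ r := by exact_mod_cast h.r0
  have h1' : (r : ℤ) ^ 2 * n + 1 ≤ (r : ℤ) ^ 2 + L := by exact_mod_cast h1
  have hL1 : (1 : ℤ) ≤ L := by
    have h0 := h.D 0 (by omega)
    have : 1 ≤ L := by omega
    exact_mod_cast this
  rcases hc with hc | ⟨hn3, hc⟩ | ⟨hn5, hc⟩
  · rcases Nat.eq_zero_or_pos n with h0 | h0
    · subst h0
      have : L ≤ 0 := by simpa using hc
      omega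
    · obtain ⟨k, rfl⟩ : ∃ k, n = k + 1 := ⟨n - 1, by omega⟩
      rw [Nat.add_sub_cancel] at hc
      have h3 : r ^ 2 * (k + 1) = r ^ 2 * k + r ^ 2 := by ring
      omega
  · have h3 : (2 : ℤ) ≤ 3 * r + 1 - 2 * s := by
      have : 2 * (s + 1) + 0 ≤ 3 * r + 1 := by omega
      have : (2 : ℤ) * (s + 1) ≤ 3 * r + 1 := by exact_mod_cast this
      linarith
    have h4 : ((L : ℤ) - 1) * 2 ≤ ((L : ℤ) - 1) * (3 * r + 1 - 2 * s) :=
      mul_le_mul_of_nonneg_left h3 (by linarith)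
    have h5 : (3 : ℤ) ≤ n := by exact_mod_cast hn3
    have h6 : (r : ℤ) ^ 2 * 3 ≤ (r : ℤ) ^ 2 * n := mul_le_mul_of_nonneg_left h5 (by positivity)
    nlinarith
  · have h3 : (1 : ℤ) ≤ 3 * r + 1 - 2 * s := by
      have : 2 * (s + 1) + 0 ≤ 3 * r + 2 := by omega
      have : (2 : ℤ) * (s + 1) ≤ 3 * r + 2 := by exact_mod_cast this
      linarith
    have h4 : ((L : ℤ) - 1) * 1 ≤ ((L : ℤ) - 1) * (3 * r + 1 - 2 * s) :=
      mul_le_mul_of_nonneg_left h3 (by linarith)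
    have h5 : (5 : ℤ) ≤ n := by exact_mod_cast hn5
    have h6 : (r : ℤ) ^ 2 * 5 ≤ (r : ℤ) ^ 2 * n := mul_le_mul_of_nonneg_left h5 (by positivity)
    nlinarith

end Pool.Agent.MP_e3346b_h58
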