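import Pool.Agent.Lib.MP_e3346b_ag.Reduction
import Pool.Agent.Lib.MP_e3346b_ag_h58.Num

/-!
# MP_e3346b_ag, length bounds: modules with a square presentation over an Artinian ring (helper58)

`E` is a module over the Artinian local ring `S` with `length Hom(X, E) = length X` for all finite
modules `X`, and `G : S^r → S^r`, `F : S^r → E` is a presentation with relations in the maximal
ideal.
-/

set_option autoImplicit false

universe u

namespace Pool.Agent.MP_e3346b_h58

open Pool.Agent.MP_e3346b IsLocalRing

section A

variable {S : Type u} [CommRing S] {E : Type u} [AddCommGroup E] [Module S E] {r : ℕ}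

lemma sum_length (n : ℕ) (X : Type u) [AddCommGroup X] [Module S X] :
    Module.length S (Fin n → X) = n * Module.length S X := by
  rw [Module.length_pi]
  simp

/-- Step A: if `K / J` is killed by all the coefficients of the relations then
`r · length (K / J) ≤ length (E / J E)`. -/
theorem step_A (F : (Fin r → S) →ₗ[S] E) (hF : Function.Surjective F)
    (G : (Fin r → S) →ₗ[S] (Fin r → S)) (hG : LinearMap.range G = LinearMap.ker F)
    (J K : Ideal S) (hJK : ∀ v : Fin r → S, (∀ i, v i ∈ K) → ∀ i, G v i ∈ J) :
    r * Module.length S (S ⧸ J) ≤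
      r * Module.length S (S ⧸ K) + Module.length S (E ⧸ (J • ⊤ : Submodule S E)) := by
  -- the map `S^r → (S/J)^r`
  let q : (Fin r → S) →ₗ[S] (Fin r → S ⧸ J) :=
    LinearMap.pi fun i => (Submodule.mkQ J).comp (LinearMap.proj i)
  let θ : (Fin r → S) →ₗ[S] (Fin r → S ⧸ J) := q.comp G
  have hker : Submodule.pi Set.univ (fun _ : Fin r => K) ≤ LinearMap.ker θ := by
    intro v hv
    rw [LinearMap.mem_ker]
    ext i
    change (Submodule.Quotient.mk (G v i) : S ⧸ J) = 0
    rw [Submodule.Quotient.mk_eq_zero]
    exact hJK v (fun j => hv j (Set.mem_univ j)) i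
  have h1 : Module.length S (LinearMap.range θ) ≤ r * Module.length S (S ⧸ K) := by
    have e1 : Module.length S ((Fin r → S) ⧸ LinearMap.ker θ) =
        Module.length S (LinearMap.range θ) := θ.quotKerEquivRange.length_eq
    have e2 : Module.length S ((Fin r → S) ⧸ Submodule.pi Set.univ (fun _ : Fin r => K)) =
        Module.length S (Fin r → S ⧸ K) :=
      (Submodule.quotientPi (fun _ : Fin r => K)).length_eq
    rw [← e1, ← sum_length, ← e2]
    exact Module.length_le_of_surjective (Submodule.factor hker) (Submodule.factor_surjective hker)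
  -- the map `(S/J)^r → E/JE`
  let ψ : (Fin r → S ⧸ J) →ₗ[S] (E ⧸ (J • ⊤ : Submodule S E)) := (baseF J F).restrictScalars S
  have hψ : Function.Surjective ψ := baseF_surjective J hF
  have h2 : LinearMap.ker ψ ≤ LinearMap.range θ := by
    intro w hw
    have hw1 : w ∈ LinearMap.ker (baseF J F) := hw
    rw [← baseG_range J hF hG] at hw1
    obtain ⟨z, rfl⟩ := hw1
    obtain ⟨v, rfl⟩ := exists_lift J z
    refine ⟨v, ?_⟩
    rw [baseG_mk]
    rfl
  have h3 := length_ker_add_range ψ
  rw [LinearMap.range_eq_top.mpr hψ, Module.length_top, sum_length] at h3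
  rw [h3]
  have h4 : Module.length S (LinearMap.ker ψ) ≤ Module.length S (LinearMap.range θ) :=
    Module.length_le_of_injective (Submodule.inclusion h2) (Submodule.inclusion_injective h2)
  exact add_le_add (h4.trans h1) le_rfl

end A

section B

variable {S : Type u} [CommRing S] {E : Type u} [AddCommGroup E] [Module S E] {r : ℕ}

/-- evaluation of the endomorphisms at the generators -/
def evE (F : (Fin r → S) →ₗ[S] E) : (E →ₗ[S] E) →ₗ[S] (Fin r → E) where
  toFun φ i := φ (F (Pi.single i 1))
  map_add' φ ψ := by ext i; rfl
  map_smul' c φ := by ext i; rfl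

/-- the transposed matrix, acting on the vectors with entries in the submodule `N` -/
def gT (G : (Fin r → S) →ₗ[S] (Fin r → S)) (N : Submodule S E) :
    (Fin r → N) →ₗ[S] (Fin r → E) where
  toFun v j := ∑ i, (G (Pi.single j 1) i) • (v i : E)
  map_add' v w := by
    ext j
    simp [smul_add, Finset.sum_add_distrib]
  map_smul' c v := by
    ext j
    simp only [Pi.smul_apply, Submodule.coe_smul, RingHom.id_apply, Finset.smul_sum]
    exact Finset.sum_congr rfl fun i _ => smul_comm _ _ _

lemma evE_injective (F : (Fin r → S) →ₗ[S] E) (hF : Function.Surjective F) :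
    Function.Injective (evE F) := by
  intro φ ψ h
  ext e
  obtain ⟨v, rfl⟩ := hF e
  rw [eq_sum_single v]
  simp only [map_sum, map_smul]
  exact Finset.sum_congr rfl fun i _ => congrArg (fun x => v i • x) (congrFun h i)

/-- an element of the kernel of the transposed matrix is an endomorphism -/
lemma mem_range_evE (F : (Fin r → S) →ₗ[S] E) (hF : Function.Surjective F)
    (G : (Fin r → S) →ₗ[S] (Fin r → S)) (hG : LinearMap.range G = LinearMap.ker F)
    (y : Fin r → E) (hy : ∀ j, ∑ i, (G (Pi.single j 1) i) • y i = 0) :
    y ∈ LinearMap.range (evE F) := by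
  let Y : (Fin r → S) →ₗ[S] E := Fintype.linearCombination S y
  have hker : LinearMap.ker F ≤ LinearMap.ker Y := by
    rw [← hG]
    rintro _ ⟨v, rfl⟩
    rw [LinearMap.mem_ker]
    have hcomp : Y.comp G = 0 := by
      refine LinearMap.pi_ext' fun j => LinearMap.ext_ring ?_
      simp only [LinearMap.comp_apply, LinearMap.single_apply, LinearMap.zero_apply]
      have := hy j
      simpa [Y, Fintype.linearCombination_apply] using this
    exact LinearMap.congr_fun hcomp v
  let e := F.quotKerEquivOfSurjective hF
  refine ⟨((LinearMap.ker F).liftQ Y hker).comp e.symm.toLinearMap, funext fun i => ?_⟩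
  have he : e.symm (F (Pi.single i 1)) = Submodule.Quotient.mk (Pi.single i 1) := by
    rw [LinearEquiv.symm_apply_eq]
    rfl
  change ((LinearMap.ker F).liftQ Y hker) (e.symm (F (Pi.single i 1))) = y i
  rw [he, ← Submodule.mkQ_apply, Submodule.mkQ_apply, Submodule.liftQ_apply]
  simp [Y, Fintype.linearCombination_apply_single]

variable [IsLocalRing S] [IsArtinianRing S]

/-- Step B: `r · length (N / m N) ≤ length E`, with strict inequality for `N ⊆ m E`. -/
theorem step_B [Nontrivial E] (F : (Fin r → S) →ₗ[S] E) (hF : Function.Surjective F)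
    (G : (Fin r → S) →ₗ[S] (Fin r → S)) (hG : LinearMap.range G = LinearMap.ker F)
    (hmem : ∀ v ∈ LinearMap.ker F, ∀ i, v i ∈ maximalIdeal S)
    (hend : Module.length S (E →ₗ[S] E) = Module.length S E) (N : Submodule S E)
    (hN : N ≤ maximalIdeal S • ⊤) :
    r * Module.length S N + 1 ≤
      r * Module.length S (maximalIdeal S • N : Submodule S E) + Module.length S E := by
  have hfin : Module.Finite S E := Module.Finite.of_surjective F hF
  have hGmem : ∀ j i, G (Pi.single j 1) i ∈ maximalIdeal S := by
    intro j i
    refine hmem _ ?_ i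
    rw [← hG]
    exact ⟨_, rfl⟩
  have h1 := length_ker_add_range (gT G N)
  rw [sum_length] at h1
  -- the range
  have h2 : Module.length S (LinearMap.range (gT G N)) ≤
      r * Module.length S (maximalIdeal S • N : Submodule S E) := by
    let ι : (Fin r → (maximalIdeal S • N : Submodule S E)) →ₗ[S] (Fin r → E) :=
      LinearMap.pi fun i => (Submodule.subtype _).comp (LinearMap.proj i)
    have hle : LinearMap.range (gT G N) ≤ LinearMap.range ι := by
      rintro _ ⟨v, rfl⟩
      have hj : ∀ j, (gT G N v) j ∈ (maximalIdeal S • N : Submodule S E) := by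
        intro j
        change ∑ i, (G (Pi.single j 1) i) • (v i : E) ∈ (maximalIdeal S • N : Submodule S E)
        exact Submodule.sum_mem _ fun i _ => Submodule.smul_mem_smul (hGmem j i) (v i).2
      exact ⟨fun j => ⟨_, hj j⟩, rfl⟩
    have h3 : Module.length S (LinearMap.range (gT G N)) ≤ Module.length S (LinearMap.range ι) :=
      Module.length_le_of_injective (Submodule.inclusion hle) (Submodule.inclusion_injective hle)
    refine h3.trans ?_
    rw [← sum_length]
    exact Module.length_le_of_surjective ι.rangeRestrict ι.surjective_rangeRestrict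
  -- the kernel
  have h3 : Module.length S (LinearMap.ker (gT G N)) + 1 ≤ Module.length S E := by
    let κ : LinearMap.ker (gT G N) →ₗ[S] (Fin r → E) :=
      (LinearMap.pi fun i => (Submodule.subtype N).comp (LinearMap.proj i)).comp
        (Submodule.subtype _)
    have hκ : Function.Injective κ := by
      intro v w hvw
      apply Subtype.ext
      funext i
      apply Subtype.ext
      exact congrFun hvw i
    have hle : LinearMap.range κ ≤ LinearMap.range (evE F) := by
      rintro _ ⟨v, rfl⟩
      apply mem_range_evE F hF G hG
      intro j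
      exact congrFun (LinearMap.mem_ker.mp v.2) j
    have hne : LinearMap.range κ ≠ LinearMap.range (evE F) := by
      intro heq
      have hid : evE F LinearMap.id ∈ LinearMap.range κ := by
        rw [heq]
        exact ⟨_, rfl⟩
      obtain ⟨v, hv⟩ := hid
      have hall : ∀ i, F (Pi.single i 1) ∈ (maximalIdeal S • ⊤ : Submodule S E) := by
        intro i
        have : F (Pi.single i 1) = (v.1 i : E) := (congrFun hv i).symm
        rw [this]
        exact hN (v.1 i).2
      have htop : (⊤ : Submodule S E) ≤ maximalIdeal S • ⊤ := by
        intro e _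
        obtain ⟨w, rfl⟩ := hF e
        rw [eq_sum_single w, map_sum]
        refine Submodule.sum_mem _ fun i _ => ?_
        rw [map_smul]
        exact Submodule.smul_mem _ _ (hall i)
      have hbot : (⊤ : Submodule S E) = ⊥ :=
        Submodule.eq_bot_of_le_smul_of_le_jacobson_bot (maximalIdeal S) ⊤ Module.Finite.fg_top htop
          (maximalIdeal_le_jacobson _)
      exact top_ne_bot hbot
    have hlt : Module.length S (LinearMap.range κ) < Module.length S (LinearMap.range (evE F)) := by
      rw [Module.length_submodule, Module.length_submodule]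
      exact Submodule.height_strictMono (lt_of_le_of_ne hle hne)
    have e1 : Module.length S (LinearMap.range κ) = Module.length S (LinearMap.ker (gT G N)) :=
      (LinearEquiv.ofInjective κ hκ).length_eq.symm
    have e2 : Module.length S (LinearMap.range (evE F)) = Module.length S E := by
      rw [← hend]
      exact (LinearEquiv.ofInjective (evE F) (evE_injective F hF)).length_eq.symm
    rw [e1, e2] at hlt
    exact Order.add_one_le_of_lt hlt
  rw [h1]
  calc Module.length S (LinearMap.ker (gT G N)) + Module.length S (LinearMap.range (gT G N)) + 1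
      = Module.length S (LinearMap.range (gT G N)) +
          (Module.length S (LinearMap.ker (gT G N)) + 1) := by ring
    _ ≤ _ := add_le_add h2 h3

end B

end Pool.Agent.MP_e3346b_h58
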