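import Pool.Agent.Lib.MP_e3346b_ag_h58.Main

/-!
# MP_e3346b_ag, length bounds: reduction modulo a given regular sequence (helper58)
-/

set_option autoImplicit false

universe u

namespace Pool.Agent.MP_e3346b_h58

open CategoryTheory CategoryTheory.Abelian RingTheory.Sequence Pool.Agent.MP_e3346b IsLocalRing

section Len

variable {R : Type u} [CommRing R] (I : Ideal R)

lemma len_quot (A : Ideal R) (A' : Ideal (R ⧸ I))
    (h : ∀ x, Ideal.Quotient.mk I x ∈ A' ↔ x ∈ A) :
    Module.length R (R ⧸ A) = Module.length (R ⧸ I) ((R ⧸ I) ⧸ A') := by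
  let π : R →ₗ[R] ((R ⧸ I) ⧸ A') := ((Submodule.mkQ A').restrictScalars R).comp (Submodule.mkQ I)
  have hπ : Function.Surjective π :=
    (Submodule.mkQ_surjective A').comp (Submodule.mkQ_surjective I)
  have hk : LinearMap.ker π = A := by
    ext x
    rw [LinearMap.mem_ker]
    change (Submodule.Quotient.mk (Ideal.Quotient.mk I x) : (R ⧸ I) ⧸ A') = 0 ↔ x ∈ A
    rw [Submodule.Quotient.mk_eq_zero, h]
  have e1 : Module.length R (R ⧸ LinearMap.ker π) = Module.length R ((R ⧸ I) ⧸ A') :=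
    (π.quotKerEquivOfSurjective hπ).length_eq
  rw [hk] at e1
  rw [e1]
  exact Module.length_eq_of_surjective (S := R) (R := R ⧸ I) (M := (R ⧸ I) ⧸ A')
    Ideal.Quotient.mk_surjective

lemma len_self : Module.length R (R ⧸ I) = Module.length (R ⧸ I) (R ⧸ I) :=
  Module.length_eq_of_surjective (S := R) (R := R ⧸ I) (M := R ⧸ I)
    Ideal.Quotient.mk_surjective

lemma mem_map_mk (A : Ideal R) (hA : I ≤ A) (x : R) :
    Ideal.Quotient.mk I x ∈ A.map (Ideal.Quotient.mk I) ↔ x ∈ A := by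
  constructor
  · intro h
    rw [Ideal.mem_map_iff_of_surjective _ Ideal.Quotient.mk_surjective] at h
    obtain ⟨y, hy, hxy⟩ := h
    rw [Ideal.Quotient.eq] at hxy
    have h1 := A.sub_mem hy (hA hxy)
    rwa [sub_sub_cancel] at h1
  · exact fun h => Ideal.mem_map_of_mem _ h

end Len

theorem reduction_explicit (R : Type u) [CommRing R] [IsLocalRing R] [IsNoetherianRing R]
    (ω : Type u) [AddCommGroup ω] [Module R ω] [Module.Finite R ω]
    (h0 : ∀ i : ℕ, (i : WithBot ℕ∞) ≠ ringKrullDim R →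
      Subsingleton (Ext (ModuleCat.of R (IsLocalRing.ResidueField R)) (ModuleCat.of R ω) i))
    (h1 : ∀ i : ℕ, (i : WithBot ℕ∞) = ringKrullDim R →
      Module.length R
        (Ext (ModuleCat.of R (IsLocalRing.ResidueField R)) (ModuleCat.of R ω) i) = 1)
    (n : ℕ) (f : (Fin n → R) →ₗ[R] ω) (hf : Function.Surjective f)
    (hmin : ∀ m : ℕ, ∀ h : (Fin m → R) →ₗ[R] ω, Function.Surjective h → n ≤ m)
    (g : (Fin n → R) →ₗ[R] (Fin n → R)) (hg : LinearMap.range g = LinearMap.ker f)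
    (rs : List R) (hregR : IsRegular R rs) (hregω : IsRegular ω rs)
    (hlen : (rs.length : WithBot ℕ∞) = ringKrullDim R) (I : Ideal R) (hI : I = Ideal.ofList rs) :
    ∃ (_ : IsLocalRing (R ⧸ I)) (_ : IsArtinianRing (R ⧸ I))
      (_ : Nontrivial (ω ⧸ (I • ⊤ : Submodule R ω))),
      I ≤ maximalIdeal R ∧
      (∀ v ∈ LinearMap.ker (baseF I f), ∀ i, v i ∈ maximalIdeal (R ⧸ I)) ∧
      (∀ c : R ⧸ I, (∀ e : ω ⧸ (I • ⊤ : Submodule R ω), c • e = 0) → c = 0) ∧
      (∀ φ : (ω ⧸ (I • ⊤ : Submodule R ω)) →ₗ[R ⧸ I] (ω ⧸ (I • ⊤ : Submodule R ω)),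
        ∃ c : R ⧸ I, ∀ e, φ e = c • e) ∧
      (∀ (X : Type u) [AddCommGroup X] [Module (R ⧸ I) X], Module.Finite (R ⧸ I) X →
        Module.length (R ⧸ I) (X →ₗ[R ⧸ I] (ω ⧸ (I • ⊤ : Submodule R ω))) =
          Module.length (R ⧸ I) X) := by
  obtain ⟨d, hd⟩ : ∃ d : ℕ, ringKrullDim R = (d : WithBot ℕ∞) := ⟨rs.length, hlen.symm⟩
  have hlen' : rs.length = d := by
    rw [hd] at hlen
    exact_mod_cast hlen
  simp only [hd, ne_eq, Nat.cast_inj] at h0 h1
  have h1' := h1 d rfl
  have hntR : I ≠ ⊤ := by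
    intro h
    have h2 := hregR.top_ne_smul
    rw [← hI, h] at h2
    exact h2 (by simp)
  have hIm : I ≤ maximalIdeal R := IsLocalRing.le_maximalIdeal hntR
  have hdim : ringKrullDim (R ⧸ I) = 0 := by
    have := ringKrullDim_add_length_eq_ringKrullDim_of_isRegular rs hregR
    rw [← hI, hlen', hd] at this
    have hb : ringKrullDim (R ⧸ I) ≠ ⊥ := by
      intro h
      rw [h, WithBot.bot_add] at this
      exact absurd this.symm (WithBot.natCast_ne_bot (α := ℕ∞) d)
    obtain ⟨x, hx⟩ := WithBot.ne_bot_iff_exists.mp hb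
    rw [← hx] at this ⊢
    have h3 : x + (d : ℕ∞) = (0 : ℕ∞) + (d : ℕ∞) := by
      rw [zero_add]
      exact_mod_cast this
    have h4 : x = 0 := ENat.add_left_injective_of_ne_top (ENat.natCast_ne_top d) h3
    rw [h4]
    rfl
  have hnt : Nontrivial (R ⧸ I) := Ideal.Quotient.nontrivial_iff.mpr hntR
  have hloc : IsLocalRing (R ⧸ I) :=
    IsLocalRing.of_surjective' (Ideal.Quotient.mk I) Ideal.Quotient.mk_surjective
  have hart : IsArtinianRing (R ⧸ I) := by
    rw [isArtinianRing_iff_krullDimLE_zero]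
    rw [Ring.KrullDimLE, Order.krullDimLE_iff]
    exact hdim.le
  let e : (R ⧸ I) →ₛₗ[Ideal.Quotient.mk I] (R ⧸ I) := ⟨.id _, fun _ _ => rfl⟩
  have hA : IsArtinian R (R ⧸ I) :=
    (e.isArtinian_iff_of_bijective Function.bijective_id).mpr hart
  have hN : IsNoetherian R (R ⧸ I) :=
    (e.isNoetherian_iff_of_bijective Function.bijective_id).mpr inferInstance
  have hE : ∀ r ∈ I, ∀ x : ω ⧸ (I • ⊤ : Submodule R ω), r • x = 0 := by
    intro r hr x
    obtain ⟨y, rfl⟩ := Submodule.mkQ_surjective _ x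
    rw [Submodule.mkQ_apply, ← Submodule.Quotient.mk_smul, Submodule.Quotient.mk_eq_zero]
    exact Submodule.smul_mem_smul hr trivial
  have hlenX : ∀ (X : Type u) [AddCommGroup X] [Module R X], Module.Finite R X →
      (∀ r ∈ I, ∀ x : X, r • x = 0) →
      Module.length R (X →ₗ[R] (ω ⧸ (I • ⊤ : Submodule R ω))) = Module.length R X := by
    intro X _ _ hfX hX
    obtain ⟨hXA, hXN⟩ := finite_length_of_killed I hA hN X hX
    have hXfl : IsFiniteLength R X := isFiniteLength_iff_isNoetherian_isArtinian.mpr ⟨hXN, hXA⟩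
    have e1 := (ext_of_isFiniteLength (ModuleCat.of R ω) d (fun i hi => h0 i hi) h1' X hXfl).2
    have e2 := length_ext_eq_length_hom X rs ω hregω (fun r hr => by
      rw [Module.mem_annihilator]
      exact hX r (by rw [hI]; exact Ideal.subset_span hr))
    rw [hlen', e1] at e2
    rw [e2, hI]
  refine ⟨hloc, hart, ?_, hIm, ?_, ?_, ?_, ?_⟩
  · rw [hI]
    exact hregω.quot_ofList_smul_nontrivial ⊤
  · intro v hv i
    obtain ⟨v, rfl⟩ := exists_lift I v
    rw [LinearMap.mem_ker, baseF_mk] at hv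
    obtain ⟨u, w, hwI, rfl⟩ := exists_of_baseF_eq_zero I hf hg hv
    have h5 : g u i ∈ IsLocalRing.maximalIdeal R :=
      mem_maximalIdeal_of_minimal f hf hmin (g u) (by
        have : g u ∈ LinearMap.ker f := by rw [← hg]; exact ⟨u, rfl⟩
        exact this) i
    have h6 : (g u + w) i ∈ IsLocalRing.maximalIdeal R :=
      add_mem h5 (hIm (hwI i))
    by_contra hcon
    rw [IsLocalRing.mem_maximalIdeal, mem_nonunits_iff, not_not] at hcon
    have : IsLocalHom (Ideal.Quotient.mk I) :=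
      IsLocalHom.of_surjective (Ideal.Quotient.mk I) Ideal.Quotient.mk_surjective
    have h7 := isUnit_of_map_unit (Ideal.Quotient.mk I) _ hcon
    exact (mem_nonunits_iff.mp ((IsLocalRing.mem_maximalIdeal _).mp h6)) h7
  · intro s hs
    obtain ⟨r, rfl⟩ := Ideal.Quotient.mk_surjective s
    rw [Ideal.Quotient.eq_zero_iff_mem]
    exact mem_of_kills I hA hN (ω ⧸ (I • ⊤ : Submodule R ω)) hE hlenX r fun x => hs x
  · intro φ
    obtain ⟨r, hr⟩ := exists_homothety I hA hN (ω ⧸ (I • ⊤ : Submodule R ω)) hE hlenX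
      (φ.restrictScalars R)
    exact ⟨Ideal.Quotient.mk I r, fun x => hr x⟩
  · intro X _ _ hfX
    let _ : Module R X := Module.compHom X (Ideal.Quotient.mk I)
    have _ : IsScalarTower R (R ⧸ I) X := ⟨fun a b x => by
      obtain ⟨b, rfl⟩ := Ideal.Quotient.mk_surjective b
      change (Ideal.Quotient.mk I (a * b)) • x = (Ideal.Quotient.mk I a) • _
      rw [map_mul, mul_smul]⟩
    have hfin : Module.Finite R X := Module.Finite.trans (R ⧸ I) X
    have h3 := hlenX X hfin (fun r hr x => by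
      change (Ideal.Quotient.mk I r) • x = 0
      rw [Ideal.Quotient.eq_zero_iff_mem.mpr hr, zero_smul])
    have h4 : Module.length R X = Module.length (R ⧸ I) X :=
      Module.length_eq_of_surjective (S := R) (R := R ⧸ I) (M := X) Ideal.Quotient.mk_surjective
    have h5 : Module.length R (X →ₗ[R] (ω ⧸ (I • ⊤ : Submodule R ω))) =
        Module.length R (X →ₗ[R ⧸ I] (ω ⧸ (I • ⊤ : Submodule R ω))) :=
      (LinearMap.extendScalarsOfSurjectiveEquiv (R := R) (S := R ⧸ I) (M := X)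
        (N := ω ⧸ (I • ⊤ : Submodule R ω)) Ideal.Quotient.mk_surjective).length_eq
    have h6 : Module.length R (X →ₗ[R ⧸ I] (ω ⧸ (I • ⊤ : Submodule R ω))) =
        Module.length (R ⧸ I) (X →ₗ[R ⧸ I] (ω ⧸ (I • ⊤ : Submodule R ω))) :=
      Module.length_eq_of_surjective (S := R) (R := R ⧸ I)
        (M := X →ₗ[R ⧸ I] (ω ⧸ (I • ⊤ : Submodule R ω))) Ideal.Quotient.mk_surjective
    rw [← h6, ← h5, h3, h4]

end Pool.Agent.MP_e3346b_h58
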